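import Mathlib
import Pool.Agent.H15.MK2

set_option autoImplicit false

namespace Pool.Agent.Results.MP_446ff5_lc.Definable

/-- Quantifier-free formulas with equality and one binary relation symbol, variables from `ι`. -/
inductive QF (ι : Type) : Type
  | rel : ι → ι → QF ι
  | eq : ι → ι → QF ι
  | neg : QF ι → QF ι
  | and : QF ι → QF ι → QF ι

/-- Truth of a quantifier-free formula in the structure `(V, R)` under the assignment `e`. -/
def QF.Holds {ι V : Type} (R : V → V → Prop) (e : ι → V) : QF ι → Prop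
  | .rel i j => R (e i) (e j)
  | .eq i j => e i = e j
  | .neg φ => ¬ QF.Holds R e φ
  | .and φ ψ => QF.Holds R e φ ∧ QF.Holds R e ψ

/-- Minkowski interval on `F^(m+1)`, coordinate `0` being time. -/
def mu {F : Type} [Field F] {m : ℕ} (x y : Fin (m + 1) → F) : F :=
  (x 0 - y 0) ^ 2 - ∑ i : Fin m, (x i.succ - y i.succ) ^ 2

/-- Lightlike relatedness. -/
def Lightlike {F : Type} [Field F] {m : ℕ} (x y : Fin (m + 1) → F) : Prop :=
  mu x y = 0 ∧ x ≠ y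

/-- No common lightlike neighbour, at the point `u`. -/
def nc {ι : Type} (u a b c : ι) : QF ι := .neg (.and (.rel u a) (.and (.rel u b) (.rel u c)))

/-- Matrix of the definition of spacelike relatedness. -/
def sp {ι : Type} (u x z p : ι) : QF ι :=
  .and (.neg (.eq x z)) (.and (.neg (.rel x z)) (.and (.rel p x) (.and (.neg (.rel p z))
    (nc u p x z))))

/-- The matrix of the existential-universal definition. -/
def psi {ι : Type} (x y z z' p1 p2 p3 p4 u : ι) : QF ι :=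
  .and (.neg (.eq x y)) (.and (.neg (.rel x y)) (.and (.rel z z') (.and (sp u x z p1)
    (.and (sp u y z p2) (.and (sp u x z' p3) (.and (sp u y z' p4)
      (.and (nc u x y z) (nc u x y z'))))))))

theorem lightlike_eq {F : Type} [Field F] {m : ℕ} :
    (Lightlike : (Fin (m + 1) → F) → _ → Prop) = Pool.Agent.H15.MK2.L := by
  funext x y
  simp only [Lightlike, mu, Pool.Agent.H15.MK2.L, Pool.Agent.H15.MK1.B, Pi.sub_apply, sq]

theorem result : ∃ (k l : ℕ) (ψ : QF (Fin 2 ⊕ Fin k ⊕ Fin l)),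
    ∀ (m : ℕ), 3 ≤ m + 1 →
    ∀ (F : Type) [Field F] [LinearOrder F] [IsStrictOrderedRing F],
      (∀ s : F, 0 ≤ s → ∃ r : F, r * r = s) →
      ∀ x y : Fin (m + 1) → F,
        (∃ u : Fin k → (Fin (m + 1) → F), ∀ v : Fin l → (Fin (m + 1) → F),
          ψ.Holds Lightlike (Sum.elim ![x, y] (Sum.elim u v))) ↔ 0 < mu x y := by
  refine ⟨6, 1, psi (.inl 0) (.inl 1) (.inr (.inl 0)) (.inr (.inl 1)) (.inr (.inl 2))
    (.inr (.inl 3)) (.inr (.inl 4)) (.inr (.inl 5)) (.inr (.inr 0)), ?_⟩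
  intro m hm F _ _ _ hE x y
  have hmu : mu x y = Pool.Agent.H15.MK1.B (x - y) (x - y) := by
    simp only [mu, Pool.Agent.H15.MK1.B, Pi.sub_apply, sq]
  rw [hmu, ← Pool.Agent.H15.MK2.main (by omega) hE x y, lightlike_eq]
  simp only [psi, sp, nc, QF.Holds, Sum.elim_inl, Sum.elim_inr, Matrix.cons_val_zero,
    Matrix.cons_val_one, Pool.Agent.H15.MK2.S, Pool.Agent.H15.MK2.N]
  constructor
  · rintro ⟨u, h⟩
    obtain ⟨a1, a2, a3, ⟨b1, b2, b3, b4, -⟩, ⟨c1, c2, c3, c4, -⟩, ⟨d1, d2, d3, d4, -⟩,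
      ⟨e1, e2, e3, e4, -⟩, -, -⟩ := h (fun _ => x)
    exact ⟨u 0, u 1, u 2, u 3, u 4, u 5, a1, a2, a3,
      ⟨b1, b2, b3, b4, fun w => (h (fun _ => w)).2.2.2.1.2.2.2.2⟩,
      ⟨c1, c2, c3, c4, fun w => (h (fun _ => w)).2.2.2.2.1.2.2.2.2⟩,
      ⟨d1, d2, d3, d4, fun w => (h (fun _ => w)).2.2.2.2.2.1.2.2.2.2⟩,
      ⟨e1, e2, e3, e4, fun w => (h (fun _ => w)).2.2.2.2.2.2.1.2.2.2.2⟩,
      fun w => (h (fun _ => w)).2.2.2.2.2.2.2.1, fun w => (h (fun _ => w)).2.2.2.2.2.2.2.2⟩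
  · rintro ⟨z, z', p1, p2, p3, p4, a1, a2, a3, ⟨b1, b2, b3, b4, b5⟩, ⟨c1, c2, c3, c4, c5⟩,
      ⟨d1, d2, d3, d4, d5⟩, ⟨e1, e2, e3, e4, e5⟩, n1, n2⟩
    exact ⟨![z, z', p1, p2, p3, p4], fun v => ⟨a1, a2, a3, ⟨b1, b2, b3, b4, b5 _⟩,
      ⟨c1, c2, c3, c4, c5 _⟩, ⟨d1, d2, d3, d4, d5 _⟩, ⟨e1, e2, e3, e4, e5 _⟩, n1 _, n2 _⟩⟩

end Pool.Agent.Results.MP_446ff5_lc.Definable
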